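import Mathlib

/-!
# FunctionField: definitions of the statement
-/

set_option autoImplicit false

namespace Pool.H27.MV.FunctionField

open Polynomial Filter UniqueFactorizationMonoid

/-- The number of distinct monic irreducible factors of the polynomial `f`. -/
noncomputable def omegaPoly {F : Type*} [Field F] (f : F[X]) : ℕ :=
  Set.ncard {P : F[X] | P.Monic ∧ Irreducible P ∧ P ∣ f}

/-- The absolute value `|f| = q ^ deg f`, the number of residues modulo `f`. -/
noncomputable def absPoly {F : Type*} [Field F] [Fintype F] (f : F[X]) : ℝ :=
  (Fintype.card F : ℝ) ^ f.natDegree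

/-- The analogue of `limsup (sum_{i < k} omega (n + i)) * log log n / log n` for the set `K` of
shifts: the limsup, as `|f| → ∞`, of the sum over `P ∈ K` of the number of distinct prime factors
of `f + P`, multiplied by `log log |f| / log |f|`. -/
noncomputable def limsupOmega {F : Type*} [Field F] [Fintype F] (K : Finset F[X]) : EReal :=
  limsup (fun f : F[X] =>
    (((∑ P ∈ K, (omegaPoly (f + P) : ℝ))
      * (Real.log (Real.log (absPoly f)) / Real.log (absPoly f)) : ℝ) : EReal))
    (comap natDegree atTop)

end Pool.H27.MV.FunctionField
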