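import Mathlib
import Pool.Agent.H27.MV.FunctionFieldDefs

/-!
# FunctionField: the proof
-/

set_option autoImplicit false

namespace Pool.H27.MV.FunctionField

open Polynomial Filter UniqueFactorizationMonoid

variable {F : Type*} [Field F]

lemma omegaPoly_eq [DecidableEq F] {f : F[X]} (hf : f ≠ 0) :
    omegaPoly f = (normalizedFactors f).toFinset.card := by
  unfold omegaPoly
  rw [← Set.ncard_coe_finset]
  congr 1
  ext P
  simp only [Set.mem_ofPred_eq, Finset.mem_coe, Multiset.mem_toFinset,
    Polynomial.mem_normalizedFactors_iff hf]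
  tauto

lemma finite_factors {f : F[X]} (hf : f ≠ 0) :
    {P : F[X] | P.Monic ∧ Irreducible P ∧ P ∣ f}.Finite := by
  classical
  refine Set.Finite.subset (Finset.finite_toSet (normalizedFactors f).toFinset) ?_
  intro P hP
  simp only [Set.mem_ofPred_eq] at hP
  simp only [Finset.mem_coe, Multiset.mem_toFinset, Polynomial.mem_normalizedFactors_iff hf]
  tauto

lemma omegaPoly_mono {f g : F[X]} (hg : g ≠ 0) (h : f ∣ g) : omegaPoly f ≤ omegaPoly g := by
  unfold omegaPoly
  refine Set.ncard_le_ncard ?_ (finite_factors hg)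
  intro P hP
  exact ⟨hP.1, hP.2.1, hP.2.2.trans h⟩

/-- the sum of the degrees of the distinct factors is at most the degree. -/
lemma sum_natDegree_le [DecidableEq F] {f : F[X]} (hf : f ≠ 0) :
    ∑ P ∈ (normalizedFactors f).toFinset, P.natDegree ≤ f.natDegree := by
  have hdvd : (∏ P ∈ (normalizedFactors f).toFinset, P) ∣ f := by
    refine Finset.prod_dvd_of_coprime ?_ ?_
    · intro P hP Q hQ hPQ
      simp only [Finset.mem_coe, Multiset.mem_toFinset,
        Polynomial.mem_normalizedFactors_iff hf] at hP hQ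
      simp only [Function.onFun]
      refine (hP.1.coprime_iff_not_dvd).2 ?_
      intro hd
      apply hPQ
      exact eq_of_monic_of_associated hP.2.1 hQ.2.1 (hP.1.associated_of_dvd hQ.1 hd)
    · intro P hP
      simp only [Multiset.mem_toFinset, Polynomial.mem_normalizedFactors_iff hf] at hP
      exact hP.2.2
  have h1 := natDegree_le_of_dvd hdvd hf
  rw [natDegree_prod_of_monic] at h1
  · exact h1
  · intro P hP
    simp only [Multiset.mem_toFinset, Polynomial.mem_normalizedFactors_iff hf] at hP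
    exact hP.2.1

variable [Fintype F]

/-- elementary upper bound. -/
lemma omegaPoly_le {f : F[X]} (hf : f ≠ 0) (D : ℕ) :
    (omegaPoly f : ℝ) ≤ (Fintype.card F : ℝ) ^ (D + 1) + f.natDegree / (D + 1 : ℝ) := by
  classical
  rw [omegaPoly_eq hf]
  set S := (normalizedFactors f).toFinset with hS
  have hsplit : S.card = (S.filter (fun P => P.natDegree ≤ D)).card
      + (S.filter (fun P => ¬ P.natDegree ≤ D)).card :=
    (Finset.card_filter_add_card_filter_not _).symm
  have h1 : (S.filter (fun P => P.natDegree ≤ D)).card ≤ (Fintype.card F) ^ (D + 1) := by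
    have hc : Fintype.card (Fin (D + 1) → F) = (Fintype.card F) ^ (D + 1) := by
      simp
    rw [← hc, ← Finset.card_univ]
    refine Finset.card_le_card_of_injOn (fun P => fun i : Fin (D + 1) => P.coeff i) ?_ ?_
    · intro P _
      simp
    · intro P hP Q hQ hPQ
      simp only [Finset.coe_filter, Set.mem_ofPred_eq] at hP hQ
      ext n
      by_cases hn : n < D + 1
      · exact congrFun hPQ ⟨n, hn⟩
      · rw [coeff_eq_zero_of_natDegree_lt (by omega), coeff_eq_zero_of_natDegree_lt (by omega)]
  have h2 : (S.filter (fun P => ¬ P.natDegree ≤ D)).card * (D + 1) ≤ f.natDegree := by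
    calc (S.filter (fun P => ¬ P.natDegree ≤ D)).card * (D + 1)
        = ∑ P ∈ S.filter (fun P => ¬ P.natDegree ≤ D), (D + 1) := by simp
      _ ≤ ∑ P ∈ S.filter (fun P => ¬ P.natDegree ≤ D), P.natDegree := by
          refine Finset.sum_le_sum ?_
          intro P hP
          simp only [Finset.mem_filter, not_le] at hP
          exact hP.2
      _ ≤ ∑ P ∈ S, P.natDegree :=
          Finset.sum_le_sum_of_subset (Finset.filter_subset _ _)
      _ ≤ f.natDegree := sum_natDegree_le hf
  have h2' : ((S.filter (fun P => ¬ P.natDegree ≤ D)).card : ℝ) ≤ f.natDegree / (D + 1 : ℝ) := by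
    rw [le_div_iff₀ (by positivity)]
    exact_mod_cast h2
  have h1' : ((S.filter (fun P => P.natDegree ≤ D)).card : ℝ) ≤ (Fintype.card F : ℝ) ^ (D + 1) := by
    exact_mod_cast h1
  rw [hsplit]
  push_cast
  linarith

/-- the trace polynomial. -/
noncomputable def tr (F : Type*) [Field F] [Fintype F] (e : ℕ) : F[X] :=
  ∑ i ∈ Finset.range e, X ^ (Fintype.card F) ^ i

lemma tr_pow (e : ℕ) (c : F) :
    (tr F e + C c) ^ (Fintype.card F) - (tr F e + C c) = X ^ (Fintype.card F) ^ e - X := by
  rw [← FiniteField.expand_card]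
  unfold tr
  simp only [map_add, map_sum, map_pow, expand_X, expand_C]
  have : ∑ i ∈ Finset.range e, ((X : F[X]) ^ Fintype.card F) ^ Fintype.card F ^ i
      = ∑ i ∈ Finset.range e, (X : F[X]) ^ Fintype.card F ^ (i + 1) := by
    refine Finset.sum_congr rfl ?_
    intro i _
    rw [← pow_mul, pow_succ']
  rw [this]
  have h := Finset.sum_range_succ' (fun i => (X : F[X]) ^ Fintype.card F ^ i) e
  rw [Finset.sum_range_succ] at h
  simp only [pow_zero, pow_one] at h
  linear_combination -h

lemma tr_dvd (e : ℕ) (c : F) : (tr F e + C c) ∣ X ^ (Fintype.card F) ^ e - X := by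
  rw [← tr_pow e c]
  have : (tr F e + C c) ∣ (tr F e + C c) ^ (Fintype.card F) :=
    dvd_pow_self _ Fintype.card_ne_zero
  exact dvd_sub this dvd_rfl

lemma tr_monic_natDegree (e : ℕ) (c : F) :
    (tr F (e + 2) + C c).Monic ∧ (tr F (e + 2) + C c).natDegree = (Fintype.card F) ^ (e + 1) := by
  have hq : 1 < Fintype.card F := Fintype.one_lt_card
  have hdeg : (tr F (e + 1) + C c).natDegree < (Fintype.card F) ^ (e + 1) := by
    refine lt_of_le_of_lt (natDegree_add_le _ _) ?_
    rw [max_lt_iff]
    constructor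
    · unfold tr
      refine lt_of_le_of_lt (natDegree_sum_le_of_forall_le _ _ (n := (Fintype.card F) ^ e) ?_) ?_
      · intro i hi
        rw [natDegree_X_pow]
        exact Nat.pow_le_pow_right (by omega) (by simpa [Nat.lt_succ_iff] using hi)
      · exact Nat.pow_lt_pow_right hq (by omega)
    · rw [natDegree_C]
      positivity
  have heq : tr F (e + 2) + C c = X ^ (Fintype.card F) ^ (e + 1) + (tr F (e + 1) + C c) := by
    unfold tr
    rw [Finset.sum_range_succ]
    ring
  rw [heq]
  constructor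
  · refine monic_X_pow_add ?_
    refine lt_of_le_of_lt degree_le_natDegree ?_
    exact_mod_cast hdeg
  · rw [natDegree_add_eq_left_of_natDegree_lt]
    · exact natDegree_X_pow _
    · rw [natDegree_X_pow]
      exact hdeg

lemma le_omegaPoly_tr (e : ℕ) (c : F) :
    (Fintype.card F) ^ (e + 1) ≤ omegaPoly (tr F (e + 2) + C c) * (e + 2) := by
  classical
  obtain ⟨hm, hd⟩ := tr_monic_natDegree e c
  set g := tr F (e + 2) + C c with hg
  have hg0 : g ≠ 0 := hm.ne_zero
  obtain ⟨p, hp⟩ := CharP.exists F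
  have hpp : p.Prime := CharP.char_is_prime F p
  have hsep : Separable (X ^ (Fintype.card F) ^ (e + 2) - X : F[X]) := by
    refine galois_poly_separable p _ ?_
    obtain ⟨n, -, hn⟩ := FiniteField.card F p
    rw [hn]
    exact dvd_pow (dvd_pow_self p n.ne_zero) (by omega)
  have hsq : Squarefree g := (hsep.of_dvd (tr_dvd (e + 2) c)).squarefree
  have hnd : (normalizedFactors g).Nodup := (squarefree_iff_nodup_normalizedFactors hg0).1 hsq
  have hmon : ∀ P ∈ normalizedFactors g, P.Monic := by
    intro P hP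
    exact ((Polynomial.mem_normalizedFactors_iff hg0).1 hP).2.1
  have hprod : (normalizedFactors g).prod = g := by
    have := leadingCoeff_mul_prod_normalizedFactors g
    rw [hm.leadingCoeff, C_1, one_mul] at this
    exact this
  have hsum : g.natDegree = ((normalizedFactors g).map natDegree).sum := by
    conv_lhs => rw [← hprod]
    exact natDegree_multiset_prod_of_monic _ hmon
  rw [← hd, hsum, omegaPoly_eq hg0, Multiset.toFinset_card_of_nodup hnd]
  calc ((normalizedFactors g).map natDegree).sum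
      ≤ (Multiset.card ((normalizedFactors g).map natDegree)) • (e + 2) := by
        refine Multiset.sum_le_card_nsmul _ _ ?_
        intro x hx
        rw [Multiset.mem_map] at hx
        obtain ⟨P, hP, rfl⟩ := hx
        have hP' := (Polynomial.mem_normalizedFactors_iff hg0).1 hP
        refine Nat.le_of_dvd (by omega) ?_
        refine hP'.1.natDegree_dvd_of_dvd_X_pow_card_pow_sub_X (n := e + 2) ?_
        rw [Nat.card_eq_fintype_card]
        exact hP'.2.2.trans (tr_dvd (e + 2) c)
    _ = (Multiset.card (normalizedFactors g)) * (e + 2) := by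
        simp

/-- the comparison function for the upper bound. -/
lemma tendsto_upper (Q a ε : ℝ) (hε : 0 < ε) :
    Tendsto (fun N : ℕ => Q / a * ((Real.log N + Real.log a) / (N : ℝ) ^ ε)
      + (1 + Real.log a / Real.log N) / (1 - ε)) atTop (nhds (1 / (1 - ε))) := by
  have hN : Tendsto (fun N : ℕ => (N : ℝ)) atTop atTop := tendsto_natCast_atTop_atTop
  have h1 : Tendsto (fun x : ℝ => Real.log x / x ^ ε) atTop (nhds 0) :=
    (isLittleO_log_rpow_atTop hε).tendsto_div_nhds_zero
  have h2 : Tendsto (fun x : ℝ => Real.log a / x ^ ε) atTop (nhds 0) :=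
    Tendsto.const_div_atTop (tendsto_rpow_atTop hε) _
  have h3 : Tendsto (fun x : ℝ => Real.log a / Real.log x) atTop (nhds 0) :=
    Tendsto.const_div_atTop Real.tendsto_log_atTop _
  have h4 : Tendsto (fun x : ℝ => Q / a * ((Real.log x + Real.log a) / x ^ ε)
      + (1 + Real.log a / Real.log x) / (1 - ε)) atTop
      (nhds (Q / a * (0 + 0) + (1 + 0) / (1 - ε))) := by
    refine Tendsto.add (Tendsto.const_mul _ ?_) ((Tendsto.add tendsto_const_nhds h3).div_const _)
    refine (h1.add h2).congr ?_
    intro x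
    rw [add_div]
  have h5 := h4.comp hN
  simpa [Function.comp_def] using h5

lemma upper (δ : ℝ) (hδ : 0 < δ) :
    ∃ N₀ : ℕ, ∀ g : F[X], N₀ ≤ g.natDegree →
      (omegaPoly g : ℝ) * (Real.log (Real.log (absPoly g)) / Real.log (absPoly g)) ≤ 1 + δ := by
  set Q : ℝ := (Fintype.card F : ℝ) with hQ
  have hQ1 : 1 < Q := by
    rw [hQ]
    exact_mod_cast Fintype.one_lt_card
  set a : ℝ := Real.log Q with haQ
  have ha : 0 < a := Real.log_pos hQ1
  set ε : ℝ := δ / (2 * (1 + δ)) with hε
  have hε0 : 0 < ε := by positivity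
  have hε1 : ε < 1 := by
    rw [hε, div_lt_one (by positivity)]
    linarith
  have hlt : 1 / (1 - ε) < 1 + δ := by
    rw [div_lt_iff₀ (by linarith)]
    have : (1 + δ) * ε = δ / 2 := by
      rw [hε]
      field_simp
    nlinarith
  have hev := (tendsto_upper Q a ε hε0).eventually_le_const hlt
  have hlogN : Tendsto (fun N : ℕ => Real.log (N : ℝ)) atTop atTop :=
    Real.tendsto_log_atTop.comp tendsto_natCast_atTop_atTop
  have hev2 := hlogN.eventually_ge_atTop (1 + |Real.log a|)
  obtain ⟨N₀, hN₀⟩ := eventually_atTop.1 ((hev.and hev2).and (eventually_ge_atTop 1))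
  refine ⟨N₀, ?_⟩
  intro g hg
  obtain ⟨⟨hu, hlog⟩, h1⟩ := hN₀ g.natDegree hg
  set N := g.natDegree with hNdef
  have hg0 : g ≠ 0 := by
    rintro rfl
    rw [natDegree_zero] at hNdef
    omega
  have hNpos : (0 : ℝ) < N := by exact_mod_cast h1
  have hlogpos : 0 < Real.log N := by
    have := abs_nonneg (Real.log a)
    linarith
  have habs : Real.log (absPoly g) = N * a := by
    unfold absPoly
    rw [Real.log_pow]
  have hloglog : Real.log (N * a) = Real.log N + Real.log a :=
    Real.log_mul hNpos.ne' ha.ne'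
  rw [habs, hloglog]
  have hsum0 : 0 ≤ Real.log N + Real.log a := by
    have := neg_abs_le (Real.log a)
    linarith
  set D : ℕ := ⌊(1 - ε) * Real.log N / a⌋₊ with hD
  have hDle : (D : ℝ) ≤ (1 - ε) * Real.log N / a := by
    refine Nat.floor_le ?_
    have : 0 ≤ 1 - ε := by linarith
    positivity
  have hDlt : (1 - ε) * Real.log N / a < (D : ℝ) + 1 := Nat.lt_floor_add_one _
  have hb := omegaPoly_le hg0 D
  have hpow : Q ^ (D + 1) ≤ Q * (N : ℝ) / (N : ℝ) ^ ε := by
    rw [pow_succ, mul_comm, mul_div_assoc]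
    refine mul_le_mul_of_nonneg_left ?_ (by linarith)
    have e1 : Q ^ D = Real.exp (D * a) := by
      rw [haQ, mul_comm, Real.exp_mul, Real.exp_log (by linarith), Real.rpow_natCast]
    have e2 : (N : ℝ) / (N : ℝ) ^ ε = Real.exp ((1 - ε) * Real.log N) := by
      rw [Real.rpow_def_of_pos hNpos, ← Real.exp_log hNpos, ← Real.exp_sub, Real.log_exp]
      congr 1
      ring
    rw [e1, e2]
    refine Real.exp_le_exp.2 ?_
    rwa [le_div_iff₀ ha] at hDle
  have hdiv : (N : ℝ) / (D + 1 : ℝ) ≤ N * a / ((1 - ε) * Real.log N) := by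
    have hx : 0 < (1 - ε) * Real.log N / a := by
      have : 0 < 1 - ε := by linarith
      positivity
    calc (N : ℝ) / (D + 1 : ℝ) ≤ N / ((1 - ε) * Real.log N / a) :=
          div_le_div_of_nonneg_left hNpos.le hx hDlt.le
      _ = N * a / ((1 - ε) * Real.log N) := by
          rw [div_div_eq_mul_div]
  have hfac : 0 ≤ (Real.log N + Real.log a) / (N * a) := by positivity
  calc (omegaPoly g : ℝ) * ((Real.log N + Real.log a) / (N * a))
      ≤ (Q * (N : ℝ) / (N : ℝ) ^ ε + N * a / ((1 - ε) * Real.log N))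
        * ((Real.log N + Real.log a) / (N * a)) := by
        refine mul_le_mul_of_nonneg_right ?_ hfac
        calc (omegaPoly g : ℝ) ≤ Q ^ (D + 1) + N / (D + 1 : ℝ) := hb
          _ ≤ _ := add_le_add hpow hdiv
    _ = Q / a * ((Real.log N + Real.log a) / (N : ℝ) ^ ε)
        + (1 + Real.log a / Real.log N) / (1 - ε) := by
        have hne : (1 - ε) ≠ 0 := by linarith
        have hpe : (N : ℝ) ^ ε ≠ 0 := (Real.rpow_pos_of_pos hNpos _).ne'
        field_simp
    _ ≤ 1 + δ := hu

/-- the comparison function for the lower bound. -/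
lemma tendsto_lower (Q a d : ℝ) (hQ : 1 < Q) (ha : 0 < a) :
    Tendsto (fun e : ℕ => (1 / (1 + d / Q ^ (e + 1)))
      * ((((e : ℝ) + 1) * a + Real.log a) / (((e : ℝ) + 2) * a))) atTop (nhds 1) := by
  have h1 : Tendsto (fun e : ℕ => d / Q ^ (e + 1)) atTop (nhds 0) := by
    refine Tendsto.const_div_atTop ?_ _
    exact (tendsto_pow_atTop_atTop_of_one_lt hQ).comp (tendsto_add_atTop_nat 1)
  have h2 : Tendsto (fun e : ℕ => (1 / (1 + d / Q ^ (e + 1)))) atTop (nhds (1 / (1 + 0))) :=
    Tendsto.div tendsto_const_nhds (tendsto_const_nhds.add h1) (by norm_num)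
  have h3 : Tendsto (fun e : ℕ => ((e : ℝ) + 2)) atTop atTop :=
    tendsto_atTop_add_const_right _ _ tendsto_natCast_atTop_atTop
  have h4 : Tendsto (fun e : ℕ => 1 + (Real.log a / a - 1) / ((e : ℝ) + 2)) atTop
      (nhds (1 + 0)) := tendsto_const_nhds.add (Tendsto.const_div_atTop h3 _)
  have h5 := h2.mul h4
  simp only [add_zero, div_one, mul_one] at h5
  refine h5.congr ?_
  intro e
  congr 1
  have : (e : ℝ) + 2 ≠ 0 := by positivity
  field_simp
  ring

lemma natDegree_phi (a b : F[X]) (hb : b ≠ 0) (e : ℕ) (he : a.natDegree < (Fintype.card F) ^ (e + 1)) :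
    (b * tr F (e + 2) - a).natDegree = b.natDegree + (Fintype.card F) ^ (e + 1) := by
  have h := tr_monic_natDegree (F := F) e 0
  rw [C_0, add_zero] at h
  have h1 : (b * tr F (e + 2)).natDegree = b.natDegree + (Fintype.card F) ^ (e + 1) := by
    rw [natDegree_mul hb h.1.ne_zero, h.2]
  rw [natDegree_sub_eq_left_of_natDegree_lt, h1]
  rw [h1]
  omega

lemma limsupOmega_le (K : Finset F[X]) : limsupOmega K ≤ (K.card : EReal) := by
  unfold limsupOmega
  rw [← EReal.le_of_forall_lt_iff_le]
  intro z hz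
  refine limsup_le_of_le ?_ ?_
  · isBoundedDefault
  have hz' : (K.card : ℝ) < z := by exact_mod_cast hz
  obtain ⟨δ, hδ, hδz⟩ : ∃ δ : ℝ, 0 < δ ∧ (K.card : ℝ) * (1 + δ) ≤ z := by
    refine ⟨(z - K.card) / (K.card + 1), by
      have : (0 : ℝ) < z - K.card := by linarith
      positivity, ?_⟩
    have h0 : (0 : ℝ) ≤ (K.card : ℝ) := by positivity
    have h1 : (K.card : ℝ) * ((z - K.card) / (K.card + 1)) ≤ z - K.card := by
      rw [mul_div_assoc', div_le_iff₀ (by positivity)]
      nlinarith
    linarith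
  obtain ⟨N₀, hN₀⟩ := upper (F := F) δ hδ
  have hmem : ∀ᶠ f : F[X] in comap natDegree atTop,
      max N₀ (∑ P ∈ K, P.natDegree + 1) ≤ f.natDegree :=
    (eventually_ge_atTop _).comap _
  filter_upwards [hmem] with f hf
  have hf1 : N₀ ≤ f.natDegree := le_trans (le_max_left _ _) hf
  have hf2 : ∑ P ∈ K, P.natDegree + 1 ≤ f.natDegree := le_trans (le_max_right _ _) hf
  rw [EReal.coe_le_coe_iff]
  refine le_trans ?_ hδz
  rw [Finset.sum_mul, ← nsmul_eq_mul]
  refine Finset.sum_le_card_nsmul _ _ _ ?_
  intro P hP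
  have hdeg : (f + P).natDegree = f.natDegree := by
    refine natDegree_add_eq_left_of_natDegree_lt ?_
    have := Finset.single_le_sum (f := fun P : F[X] => P.natDegree)
      (fun _ _ => Nat.zero_le _) hP
    omega
  have habs : absPoly f = absPoly (f + P) := by
    unfold absPoly
    rw [hdeg]
  rw [habs]
  exact hN₀ _ (by rw [hdeg]; exact hf1)

lemma le_limsupOmega (K S : Finset F[X]) (hSK : S ⊆ K) (a b : F[X]) (hb : b ≠ 0)
    (hS : ∀ P ∈ S, ∃ h : F, P = a + C h * b) : (S.card : EReal) ≤ limsupOmega K := by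
  have hq : 1 < Fintype.card F := Fintype.one_lt_card
  have hQ1 : (1 : ℝ) < (Fintype.card F : ℝ) := by exact_mod_cast hq
  have ha0 : 0 < Real.log (Fintype.card F : ℝ) := Real.log_pos hQ1
  unfold limsupOmega
  rw [← EReal.ge_of_forall_gt_iff_ge]
  intro z hz
  refine le_limsup_of_frequently_le ?_ ?_
  swap
  · isBoundedDefault
  have hz' : z < (S.card : ℝ) := by exact_mod_cast hz
  have hqt : Tendsto (fun e : ℕ => (Fintype.card F) ^ (e + 1)) atTop atTop :=
    (tendsto_pow_atTop_atTop_of_one_lt hq).comp (tendsto_add_atTop_nat 1)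
  have hbig : ∀ᶠ e : ℕ in atTop, a.natDegree < (Fintype.card F) ^ (e + 1) :=
    hqt.eventually_gt_atTop _
  have hφ : Tendsto (fun e : ℕ => b * tr F (e + 2) - a) atTop (comap natDegree atTop) := by
    rw [tendsto_comap_iff]
    refine tendsto_atTop_mono' _ ?_ hqt
    filter_upwards [hbig] with e he
    simp only [Function.comp_apply]
    rw [natDegree_phi a b hb e he]
    omega
  refine hφ.frequently (Eventually.frequently ?_)
  have hlim := (tendsto_lower (Fintype.card F : ℝ) (Real.log (Fintype.card F : ℝ))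
    (b.natDegree : ℝ) hQ1 ha0).const_mul (S.card : ℝ)
  rw [mul_one] at hlim
  filter_upwards [hlim.eventually_const_le hz', hbig, eventually_ge_atTop
    (⌈|Real.log (Real.log (Fintype.card F : ℝ))| / Real.log (Fintype.card F : ℝ)⌉₊)]
    with e hlow he heb
  rw [EReal.coe_le_coe_iff]
  refine le_trans hlow ?_
  set Q : ℝ := (Fintype.card F : ℝ) with hQ
  set l : ℝ := Real.log Q with hl
  have hQe : 0 < Q ^ (e + 1) := by positivity
  have habs : Real.log (absPoly (b * tr F (e + 2) - a)) = (b.natDegree + Q ^ (e + 1)) * l := by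
    unfold absPoly
    rw [natDegree_phi a b hb e he, Real.log_pow]
    push_cast
    rfl
  rw [habs]
  have hel : |Real.log l| ≤ e * l := by
    have h1 : |Real.log l| / l ≤ (e : ℝ) := le_trans (Nat.le_ceil _) (by exact_mod_cast heb)
    rwa [div_le_iff₀ ha0] at h1
  have hnum0 : 0 ≤ ((e : ℝ) + 1) * l + Real.log l := by
    have := neg_abs_le (Real.log l)
    nlinarith
  have hloglow : ((e : ℝ) + 1) * l + Real.log l
      ≤ Real.log ((b.natDegree + Q ^ (e + 1)) * l) := by
    have h1 : ((e : ℝ) + 1) * l + Real.log l = Real.log (Q ^ (e + 1) * l) := by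
      rw [Real.log_mul hQe.ne' ha0.ne', Real.log_pow]
      push_cast
      ring
    rw [h1]
    refine Real.log_le_log (by positivity) ?_
    refine mul_le_mul_of_nonneg_right ?_ ha0.le
    have : (0 : ℝ) ≤ (b.natDegree : ℝ) := by positivity
    linarith
  have homega : ∀ P ∈ S, Q ^ (e + 1) / ((e : ℝ) + 2)
      ≤ (omegaPoly (b * tr F (e + 2) - a + P) : ℝ) := by
    intro P hP
    obtain ⟨h, rfl⟩ := hS P hP
    have hm := (tr_monic_natDegree (F := F) e h).1
    have heq : b * tr F (e + 2) - a + (a + C h * b) = b * (tr F (e + 2) + C h) := by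
      ring
    rw [heq]
    have h1 := le_omegaPoly_tr (F := F) e h
    have h2 := omegaPoly_mono (mul_ne_zero hb hm.ne_zero)
      (dvd_mul_left (tr F (e + 2) + C h) b)
    have h3 : Q ^ (e + 1) ≤ (omegaPoly (tr F (e + 2) + C h) : ℝ) * ((e : ℝ) + 2) := by
      have h1' : (((Fintype.card F) ^ (e + 1) : ℕ) : ℝ)
          ≤ ((omegaPoly (tr F (e + 2) + C h) * (e + 2) : ℕ) : ℝ) := by
        exact_mod_cast h1
      push_cast at h1'
      exact h1'
    rw [div_le_iff₀ (by positivity)]
    refine le_trans h3 ?_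
    refine mul_le_mul_of_nonneg_right ?_ (by positivity)
    exact_mod_cast h2
  have hsum : (S.card : ℝ) * (Q ^ (e + 1) / ((e : ℝ) + 2))
      ≤ ∑ P ∈ K, (omegaPoly (b * tr F (e + 2) - a + P) : ℝ) := by
    refine le_trans ?_ (Finset.sum_le_sum_of_subset_of_nonneg hSK
      (fun _ _ _ => Nat.cast_nonneg _))
    rw [← nsmul_eq_mul]
    exact Finset.card_nsmul_le_sum _ _ _ homega
  have hden : 0 < (b.natDegree + Q ^ (e + 1)) * l := by positivity
  calc (S.card : ℝ) * ((1 / (1 + b.natDegree / Q ^ (e + 1)))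
        * ((((e : ℝ) + 1) * l + Real.log l) / (((e : ℝ) + 2) * l)))
      = ((S.card : ℝ) * (Q ^ (e + 1) / ((e : ℝ) + 2)))
        * ((((e : ℝ) + 1) * l + Real.log l) / ((b.natDegree + Q ^ (e + 1)) * l)) := by
        have h1 : (e : ℝ) + 2 ≠ 0 := by positivity
        have h2 : (b.natDegree : ℝ) + Q ^ (e + 1) ≠ 0 := by positivity
        have h3 : (1 : ℝ) + b.natDegree / Q ^ (e + 1) ≠ 0 := by positivity
        field_simp
        ring
    _ ≤ (∑ P ∈ K, (omegaPoly (b * tr F (e + 2) - a + P) : ℝ))
        * ((((e : ℝ) + 1) * l + Real.log l) / ((b.natDegree + Q ^ (e + 1)) * l)) :=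
        mul_le_mul_of_nonneg_right hsum (by positivity)
    _ ≤ (∑ P ∈ K, (omegaPoly (b * tr F (e + 2) - a + P) : ℝ))
        * (Real.log ((b.natDegree + Q ^ (e + 1)) * l) / ((b.natDegree + Q ^ (e + 1)) * l)) := by
        refine mul_le_mul_of_nonneg_left ?_ (Finset.sum_nonneg fun _ _ => by positivity)
        exact div_le_div_of_nonneg_right hloglow hden.le

/-- Let `F` be any finite field and `K` a finite set of polynomials over `F`. If a subset `S` of
`K` lies on a line `{a + h b : h ∈ F}`, then `|S| ≤ limsupOmega K ≤ |K|`. (So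
`limsupOmega K = |K|` if `K` lies on a line, for instance if `K` consists of constants, or if `K`
has two elements; and `limsupOmega K ≥ 2` whenever `K` has at least two elements.) -/
theorem result (F : Type*) [Field F] [Fintype F] (K S : Finset F[X]) (hSK : S ⊆ K)
    (a b : F[X]) (hS : ∀ P ∈ S, ∃ h : F, P = a + C h * b) :
    (S.card : EReal) ≤ limsupOmega K ∧ limsupOmega K ≤ (K.card : EReal) := by
  refine ⟨?_, limsupOmega_le K⟩
  by_cases hb : b = 0
  · refine le_limsupOmega K S hSK a 1 one_ne_zero ?_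
    intro P hP
    obtain ⟨h, rfl⟩ := hS P hP
    exact ⟨0, by simp [hb]⟩
  · exact le_limsupOmega K S hSK a b hb hS

end Pool.H27.MV.FunctionField
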