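import Mathlib

/-!
# HardyBound: definitions of the statement
-/

set_option autoImplicit false

open Finset

namespace Pool.H27.MV.HardyBound

/-- The constant `T(n) = ∑_{k=1}^{n} (g(k) - g(k-1))²` with `g(k) = √(k (n - k) / n)`. -/
noncomputable def T (n : ℕ) : ℝ :=
  ∑ k ∈ Finset.range n,
    (√((k + 1 : ℝ) * (n - (k + 1)) / n) - √((k : ℝ) * (n - k) / n)) ^ 2

end Pool.H27.MV.HardyBound
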