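import Mathlib
import Pool.Agent.H27.MV.HardyBoundDefs

/-!
# HardyBound: the proof
-/

set_option autoImplicit false

open Finset

namespace Pool.H27.MV.HardyBound

lemma abel (y z : ℕ → ℝ) (n : ℕ) :
    ∑ k ∈ range n, (y (k + 1) - y k) * (∑ m ∈ range (k + 1), z m)
      = ∑ a ∈ range n, z a * (y n - y a) := by
  induction n with
  | zero => simp
  | succ n ih =>
    rw [sum_range_succ, ih, sum_range_succ, sum_range_succ]
    have : ∑ a ∈ range n, z a * (y (n + 1) - y a)
        = ∑ a ∈ range n, z a * (y n - y a) + (y (n + 1) - y n) * ∑ a ∈ range n, z a := by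
      rw [mul_sum, ← sum_add_distrib]
      exact sum_congr rfl fun a _ => by ring
    rw [this]
    ring

lemma key (z y : ℕ → ℝ) (n : ℕ) (hy : ∀ i j, i ≤ j → j ≤ n → y i ≤ y j) :
    ∑ a ∈ range (n + 1), ∑ b ∈ range (n + 1), z a * z b * |y a - y b|
      = 2 * ∑ k ∈ range n, (y (k + 1) - y k) * ((∑ m ∈ range (k + 1), z m) *
          ((∑ m ∈ range (n + 1), z m) - ∑ m ∈ range (k + 1), z m)) := by
  induction n with
  | zero => simp
  | succ n ih =>
    have ih' := ih (fun i j hij hj => hy i j hij (by omega))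
    rw [sum_range_succ]
    simp_rw [sum_range_succ _ (n + 1)]
    rw [sum_add_distrib, ih']
    have h1 : ∀ a ∈ range (n + 1), z a * z (n + 1) * |y a - y (n + 1)|
        = z (n + 1) * (z a * (y (n + 1) - y a)) := by
      intro a ha
      have : y a ≤ y (n + 1) := hy a (n + 1) (by have := mem_range.1 ha; omega) le_rfl
      rw [abs_of_nonpos (by linarith)]
      ring
    have h2 : ∀ a ∈ range (n + 1), z (n + 1) * z a * |y (n + 1) - y a|
        = z (n + 1) * (z a * (y (n + 1) - y a)) := by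
      intro a ha
      have : y a ≤ y (n + 1) := hy a (n + 1) (by have := mem_range.1 ha; omega) le_rfl
      rw [abs_of_nonneg (by linarith)]
      ring
    rw [sum_congr rfl h1, sum_congr rfl h2, ← mul_sum, ← abel y z (n + 1)]
    rw [sum_range_succ (fun k => (y (k + 1) - y k) * ∑ m ∈ range (k + 1), z m) n]
    rw [sum_range_succ (fun k => (y (k + 1) - y k) * ((∑ m ∈ range (k + 1), z m) *
          ((∑ m ∈ range (n + 1), z m + z (n + 1)) - ∑ m ∈ range (k + 1), z m))) n]
    have h3 : ∑ k ∈ range n, (y (k + 1) - y k) * ((∑ m ∈ range (k + 1), z m) *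
          ((∑ m ∈ range (n + 1), z m + z (n + 1)) - ∑ m ∈ range (k + 1), z m))
        = ∑ k ∈ range n, (y (k + 1) - y k) * ((∑ m ∈ range (k + 1), z m) *
          ((∑ m ∈ range (n + 1), z m) - ∑ m ∈ range (k + 1), z m))
          + z (n + 1) * ∑ k ∈ range n, (y (k + 1) - y k) * ∑ m ∈ range (k + 1), z m := by
      rw [mul_sum, ← sum_add_distrib]
      exact sum_congr rfl fun a _ => by ring
    rw [h3]
    simp only [sub_self, abs_zero, mul_zero, add_zero]
    ring

/-- The identity `key` for functions on `Fin (n+1)`, after sorting. -/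
lemma key_fin {n : ℕ} (u : Fin (n + 1) → ℝ) :
    ∃ δ : ℕ → ℝ, (∀ k, 0 ≤ δ k) ∧ ∀ h : ℕ → ℝ,
      ∑ a : Fin (n + 1), ∑ b : Fin (n + 1),
        h ((Tuple.sort u).symm a : Fin (n + 1)) * h ((Tuple.sort u).symm b : Fin (n + 1)) *
          |u a - u b|
      = 2 * ∑ k ∈ range n, δ k * ((∑ m ∈ range (k + 1), h m) *
          ((∑ m ∈ range (n + 1), h m) - ∑ m ∈ range (k + 1), h m)) := by
  set σ := Tuple.sort u with hσ
  have hmono : Monotone (u ∘ σ) := Tuple.monotone_sort u
  let y : ℕ → ℝ := fun k => u (σ ⟨min k n, by omega⟩)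
  have hy : Monotone y := by
    intro i j hij
    apply hmono
    simp only [Fin.mk_le_mk]
    omega
  refine ⟨fun k => y (k + 1) - y k, fun k => sub_nonneg.2 (hy (Nat.le_succ k)), ?_⟩
  intro h
  rw [← key h y n (fun i j hij _ => hy hij)]
  rw [← Equiv.sum_comp σ]
  rw [sum_range]
  refine sum_congr rfl fun a _ => ?_
  rw [← Equiv.sum_comp σ]
  rw [sum_range]
  refine sum_congr rfl fun b _ => ?_
  have ha : y (a : ℕ) = u (σ a) := by
    have : (⟨min (a : ℕ) n, by omega⟩ : Fin (n + 1)) = a := by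
      apply Fin.ext
      simp only
      have := a.2
      omega
    simp only [y, this]
  have hb : y (b : ℕ) = u (σ b) := by
    have : (⟨min (b : ℕ) n, by omega⟩ : Fin (n + 1)) = b := by
      apply Fin.ext
      simp only
      have := b.2
      omega
    simp only [y, this]
  rw [ha, hb]
  simp

/-- The metric of the line is of negative type. -/
lemma neg_type {n : ℕ} (u z : Fin (n + 1) → ℝ) (hz : ∑ a, z a = 0) :
    ∑ a, ∑ b, z a * z b * |u a - u b| ≤ 0 := by
  obtain ⟨δ, hδ, hkey⟩ := key_fin u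
  let h : ℕ → ℝ := fun k => z (Tuple.sort u ⟨min k n, by omega⟩)
  have hh : ∀ a : Fin (n + 1), h ((Tuple.sort u).symm a : Fin (n + 1)) = z a := by
    intro a
    have : (⟨min (((Tuple.sort u).symm a : Fin (n + 1)) : ℕ) n, by omega⟩ : Fin (n + 1))
        = (Tuple.sort u).symm a := by
      apply Fin.ext
      simp only
      have := ((Tuple.sort u).symm a).2
      omega
    simp only [h, this, Equiv.apply_symm_apply]
  have hsum : ∑ m ∈ range (n + 1), h m = 0 := by
    rw [sum_range, ← hz, ← Equiv.sum_comp (Tuple.sort u) z]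
    refine sum_congr rfl fun a _ => ?_
    rw [← hh (Tuple.sort u a)]
    simp
  have := hkey h
  simp_rw [hh, hsum] at this
  rw [this]
  apply mul_nonpos_of_nonneg_of_nonpos (by norm_num)
  apply sum_nonpos
  intro k _
  apply mul_nonpos_of_nonneg_of_nonpos (hδ k)
  nlinarith [sq_nonneg (∑ m ∈ range (k + 1), h m)]

/-- The test vector attached to one coordinate. -/
lemma test_vector {n : ℕ} (u : Fin (n + 1) → ℝ) :
    ∃ z : Fin (n + 1) → ℝ, ∑ a, z a = 0 ∧ ∑ a, z a ^ 2 = T (n + 1) ∧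
      ∑ a, ∑ b, z a * z b * |u a - u b| = - (∑ a, ∑ b, |u a - u b|) / (n + 1) := by
  obtain ⟨δ, hδ, hkey⟩ := key_fin u
  let g : ℕ → ℝ := fun k => √((k : ℝ) * (((n + 1 : ℕ) : ℝ) - k) / ((n + 1 : ℕ) : ℝ))
  let h : ℕ → ℝ := fun k => g (k + 1) - g k
  have hg0 : g 0 = 0 := by simp [g]
  have hgN : g (n + 1) = 0 := by simp [g]
  have hpart : ∀ k, ∑ m ∈ range k, h m = g k := by
    intro k
    have := sum_range_sub g k
    simp only [h]
    rw [this, hg0, sub_zero]
  refine ⟨fun a => h ((Tuple.sort u).symm a : Fin (n + 1)), ?_, ?_, ?_⟩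
  · rw [← Equiv.sum_comp (Tuple.sort u)]
    simp only [Equiv.symm_apply_apply]
    rw [← sum_range (fun k => h k), hpart, hgN]
  · rw [← Equiv.sum_comp (Tuple.sort u)]
    simp only [Equiv.symm_apply_apply]
    rw [← sum_range (fun k => h k ^ 2)]
    unfold T
    refine sum_congr rfl fun k _ => ?_
    simp only [h, g]
    push_cast
    ring_nf
  · rw [hkey h]
    have h1 := hkey (fun _ => 1)
    simp only [mul_one, one_mul, sum_const, card_range, nsmul_eq_mul] at h1
    rw [h1, hpart, hgN, mul_sum, mul_sum, ← sum_neg_distrib, sum_div]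
    refine sum_congr rfl fun k hk => ?_
    rw [hpart]
    have hk' : (k : ℝ) + 1 ≤ n := by
      have := mem_range.1 hk
      exact_mod_cast this
    have hnn : (0 : ℝ) ≤ ((k + 1 : ℕ) : ℝ) * (((n + 1 : ℕ) : ℝ) - (k + 1 : ℕ)) / ((n + 1 : ℕ) : ℝ) := by
      apply div_nonneg _ (by positivity)
      apply mul_nonneg (by positivity)
      push_cast
      linarith
    have hsq : g (k + 1) ^ 2 = ((k + 1 : ℕ) : ℝ) * (((n + 1 : ℕ) : ℝ) - (k + 1 : ℕ)) / ((n + 1 : ℕ) : ℝ) :=
      Real.sq_sqrt hnn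
    have e1 : δ k * (g (k + 1) * (0 - g (k + 1))) = - (δ k * g (k + 1) ^ 2) := by ring
    rw [e1, hsq]
    push_cast
    have hn1 : (n : ℝ) + 1 ≠ 0 := by positivity
    field_simp

/-- The bound for families indexed by `Fin (n+1)`. -/
lemma bound_fin {n d : ℕ} (x : Fin (n + 1) → Fin d → ℝ)
    (hx : ∀ a b, a ≠ b → ∑ i, |x a i - x b i| = 2) :
    (n : ℝ) ≤ d * T (n + 1) := by
  have hdist : ∀ a b, ∑ i, |x a i - x b i| = 2 - (if a = b then 2 else 0) := by
    intro a b
    by_cases hab : a = b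
    · subst hab; simp
    · rw [hx a b hab]; simp [hab]
  -- for each coordinate
  have hcoord : ∀ i : Fin d, (∑ a, ∑ b, |x a i - x b i|) / (n + 1) ≤ 2 * T (n + 1) := by
    intro i
    obtain ⟨z, hz0, hz2, hz⟩ := test_vector (fun a => x a i)
    have htot : ∑ j : Fin d, ∑ a, ∑ b, z a * z b * |x a j - x b j| = - 2 * T (n + 1) := by
      rw [sum_comm]
      have : ∀ a, ∑ j : Fin d, ∑ b, z a * z b * |x a j - x b j|
          = ∑ b, z a * z b * (2 - (if a = b then 2 else 0)) := by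
        intro a
        rw [sum_comm]
        refine sum_congr rfl fun b _ => ?_
        rw [← mul_sum, hdist]
      simp_rw [this]
      have h2 : ∀ a, ∑ b, z a * z b * (2 - (if a = b then (2 : ℝ) else 0))
          = 2 * z a * (∑ b, z b) - 2 * z a ^ 2 := by
        intro a
        simp_rw [mul_sub, sum_sub_distrib]
        congr 1
        · rw [mul_sum]
          exact sum_congr rfl fun b _ => by ring
        · simp [sq]
          ring
      simp_rw [h2, hz0]
      rw [← hz2, mul_sum]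
      exact sum_congr rfl fun a _ => by ring
    have hle : ∑ j : Fin d, ∑ a, ∑ b, z a * z b * |x a j - x b j|
        ≤ ∑ a, ∑ b, z a * z b * |x a i - x b i| := by
      have := Finset.sum_le_sum (s := (univ : Finset (Fin d)).erase i)
        (f := fun j => ∑ a, ∑ b, z a * z b * |x a j - x b j|) (g := fun _ => (0 : ℝ))
        (fun j _ => neg_type (fun a => x a j) z hz0)
      rw [← Finset.add_sum_erase univ _ (mem_univ i)]
      simp only [sum_const_zero] at this
      linarith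
    rw [htot, hz] at hle
    rw [neg_div] at hle
    linarith
  have hsum := Finset.sum_le_sum (s := (univ : Finset (Fin d))) (fun i _ => hcoord i)
  rw [← sum_div, sum_comm] at hsum
  have hpairs : ∑ a : Fin (n + 1), ∑ i : Fin d, ∑ b, |x a i - x b i|
      = 2 * ((n : ℝ) + 1) * n := by
    have : ∀ a : Fin (n + 1), ∑ i : Fin d, ∑ b, |x a i - x b i| = 2 * n := by
      intro a
      rw [sum_comm]
      simp_rw [hdist, sum_sub_distrib]
      simp
      ring
    simp_rw [this]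
    simp
    ring
  rw [hpairs] at hsum
  simp only [sum_const, card_univ, Fintype.card_fin, nsmul_eq_mul] at hsum
  have hn1 : (n : ℝ) + 1 ≠ 0 := by positivity
  have e : 2 * ((n : ℝ) + 1) * n / (n + 1) = 2 * n := by field_simp
  rw [e] at hsum
  linarith

lemma bound_finset {d : ℕ} (S : Finset (Fin d → ℝ))
    (hS : ∀ x ∈ S, ∀ y ∈ S, x ≠ y → ∑ i, |x i - y i| = 2) :
    (S.card : ℝ) - 1 ≤ d * T S.card := by
  rcases Nat.eq_zero_or_pos S.card with h0 | hpos
  · rw [h0]
    simp [T]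
  · obtain ⟨n, hn⟩ : ∃ n, S.card = n + 1 := ⟨S.card - 1, by omega⟩
    let e : Fin (n + 1) ≃ S := (Finset.equivFinOfCardEq hn).symm
    have := bound_fin (fun a => (e a : Fin d → ℝ)) (by
      intro a b hab
      apply hS _ (e a).2 _ (e b).2
      intro h
      exact hab (e.injective (Subtype.ext h)))
    rw [hn]
    push_cast
    linarith

/-- A single middle term of `T`. -/
lemma term_le {n k : ℕ} (hk : 1 ≤ k) (hkn : k + 2 ≤ n) :
    (√((k + 1 : ℝ) * (n - (k + 1)) / n) - √((k : ℝ) * (n - k) / n)) ^ 2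
      ≤ (1 / 4) * (1 / (k : ℝ) + 1 / ((n : ℝ) - 1 - k)) := by
  have hk' : (1 : ℝ) ≤ k := by exact_mod_cast hk
  have hkn' : (k : ℝ) + 2 ≤ n := by exact_mod_cast hkn
  have hn : (0 : ℝ) < n := by linarith
  set a : ℝ := (k + 1 : ℝ) * (n - (k + 1)) / n with ha
  set b : ℝ := (k : ℝ) * (n - k) / n with hb
  have ha0 : 0 < a := by
    rw [ha]; apply div_pos _ hn; apply mul_pos (by linarith) (by linarith)
  have hb0 : 0 < b := by
    rw [hb]; apply div_pos _ hn; apply mul_pos (by linarith) (by linarith)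
  have hsa : √a ^ 2 = a := Real.sq_sqrt ha0.le
  have hsb : √b ^ 2 = b := Real.sq_sqrt hb0.le
  have hsa0 : 0 < √a := Real.sqrt_pos.2 ha0
  have hsb0 : 0 < √b := Real.sqrt_pos.2 hb0
  have hab : a - b = (n - 2 * k - 1) / n := by
    rw [ha, hb]; field_simp; ring
  -- `(√a - √b)² * (√a + √b)² = (a - b)²`
  have hprod : (√a - √b) ^ 2 * (√a + √b) ^ 2 = (a - b) ^ 2 := by
    have : (√a - √b) * (√a + √b) = a - b := by
      nlinarith
    rw [← mul_pow, this]
  have hd1 : 0 < (n : ℝ) - 1 - k := by linarith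
  rcases le_total b a with hle | hle
  · -- `a ≥ b`
    have h4 : 4 * b ≤ (√a + √b) ^ 2 := by
      have : √b ≤ √a := Real.sqrt_le_sqrt hle
      nlinarith
    have h5 : (√a - √b) ^ 2 * (4 * b) ≤ (a - b) ^ 2 := by
      rw [← hprod]
      exact mul_le_mul_of_nonneg_left h4 (sq_nonneg _)
    have h6 : (√a - √b) ^ 2 ≤ 1 / (4 * k) := by
      have h7 : (a - b) ^ 2 ≤ (4 * b) * (1 / (4 * k)) := by
        rw [hab, hb]
        have : (4 * ((k : ℝ) * (n - k) / n)) * (1 / (4 * k)) = (n - k) / n := by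
          field_simp
        rw [this, div_pow, div_le_div_iff₀ (by positivity) hn]
        have h8 : (n : ℝ) - 2 * k - 1 ≥ 0 := by
          by_contra hneg
          push Not at hneg
          have : a - b < 0 := by rw [hab]; exact div_neg_of_neg_of_pos hneg hn
          linarith
        have h9 : ((n : ℝ) - 2 * k - 1) ^ 2 ≤ (n - k) * n := by nlinarith
        nlinarith
      have h10 : 0 < 4 * b := by linarith
      by_contra hcon
      push Not at hcon
      have : (4 * b) * (1 / (4 * k)) < (√a - √b) ^ 2 * (4 * b) := by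
        rw [mul_comm ((√a - √b) ^ 2)]
        exact mul_lt_mul_of_pos_left hcon h10
      linarith
    have h11 : 0 ≤ 1 / ((n : ℝ) - 1 - k) := by positivity
    calc (√a - √b) ^ 2 ≤ 1 / (4 * k) := h6
      _ = (1 / 4) * (1 / (k : ℝ)) := by ring
      _ ≤ _ := by linarith
  · have h4 : 4 * a ≤ (√a + √b) ^ 2 := by
      have : √a ≤ √b := Real.sqrt_le_sqrt hle
      nlinarith
    have h5 : (√a - √b) ^ 2 * (4 * a) ≤ (a - b) ^ 2 := by
      rw [← hprod]
      exact mul_le_mul_of_nonneg_left h4 (sq_nonneg _)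
    have h6 : (√a - √b) ^ 2 ≤ 1 / (4 * ((n : ℝ) - 1 - k)) := by
      have h7 : (a - b) ^ 2 ≤ (4 * a) * (1 / (4 * ((n : ℝ) - 1 - k))) := by
        rw [hab, ha]
        have : (4 * ((k + 1 : ℝ) * (n - (k + 1)) / n)) * (1 / (4 * ((n : ℝ) - 1 - k)))
            = (k + 1) / n := by
          have : (n : ℝ) - (k + 1) = n - 1 - k := by ring
          rw [this]
          field_simp
        rw [this, div_pow, div_le_div_iff₀ (by positivity) hn]
        have h8 : (n : ℝ) - 2 * k - 1 ≤ 0 := by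
          by_contra hneg
          push Not at hneg
          have : 0 < a - b := by rw [hab]; exact div_pos hneg hn
          linarith
        have h9 : ((n : ℝ) - 2 * k - 1) ^ 2 ≤ (k + 1) * n := by nlinarith
        nlinarith
      have h10 : 0 < 4 * a := by linarith
      by_contra hcon
      push Not at hcon
      have : (4 * a) * (1 / (4 * ((n : ℝ) - 1 - k))) < (√a - √b) ^ 2 * (4 * a) := by
        rw [mul_comm ((√a - √b) ^ 2)]
        exact mul_lt_mul_of_pos_left hcon h10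
      linarith
    have h11 : 0 ≤ 1 / (k : ℝ) := by positivity
    calc (√a - √b) ^ 2 ≤ 1 / (4 * ((n : ℝ) - 1 - k)) := h6
      _ = (1 / 4) * (1 / ((n : ℝ) - 1 - k)) := by field_simp
      _ ≤ _ := by linarith

lemma T_le (n : ℕ) : T n ≤ 5 / 2 + Real.log n / 2 := by
  rcases Nat.lt_or_ge n 2 with h | h
  · interval_cases n
    · simp [T]; norm_num
    · simp [T]; norm_num
  · obtain ⟨m, rfl⟩ : ∃ m, n = m + 2 := ⟨n - 2, by omega⟩
    have hn0 : (0 : ℝ) < ((m + 2 : ℕ) : ℝ) := by positivity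
    unfold T
    rw [sum_range_succ, sum_range_succ']
    -- first and last term are at most one
    have hfirst : (√((((0 : ℕ) : ℝ) + 1) * (((m + 2 : ℕ) : ℝ) - (((0 : ℕ) : ℝ) + 1)) / ((m + 2 : ℕ) : ℝ))
        - √(((0 : ℕ) : ℝ) * (((m + 2 : ℕ) : ℝ) - ((0 : ℕ) : ℝ)) / ((m + 2 : ℕ) : ℝ))) ^ 2 ≤ 1 := by
      simp only [Nat.cast_zero, zero_mul, zero_div, Real.sqrt_zero, sub_zero, zero_add, one_mul]
      rw [Real.sq_sqrt]
      · rw [div_le_one hn0]; linarith
      · apply div_nonneg _ hn0.le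
        push_cast
        have : (0 : ℝ) ≤ m := Nat.cast_nonneg m
        linarith
    have hlast : (√((((m + 1 : ℕ) : ℝ) + 1) * (((m + 2 : ℕ) : ℝ) - (((m + 1 : ℕ) : ℝ) + 1)) / ((m + 2 : ℕ) : ℝ))
        - √(((m + 1 : ℕ) : ℝ) * (((m + 2 : ℕ) : ℝ) - ((m + 1 : ℕ) : ℝ)) / ((m + 2 : ℕ) : ℝ))) ^ 2 ≤ 1 := by
      have e1 : (((m + 2 : ℕ) : ℝ) - (((m + 1 : ℕ) : ℝ) + 1)) = 0 := by push_cast; ring
      have e2 : (((m + 2 : ℕ) : ℝ) - ((m + 1 : ℕ) : ℝ)) = 1 := by push_cast; ring
      rw [e1, e2, mul_zero, zero_div, Real.sqrt_zero, zero_sub, neg_sq, mul_one, Real.sq_sqrt (by positivity)]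
      rw [div_le_one hn0]
      push_cast
      linarith
    have hmid : ∑ k ∈ range m, (√((((k + 1 : ℕ) : ℝ) + 1) * (((m + 2 : ℕ) : ℝ) - (((k + 1 : ℕ) : ℝ) + 1)) / ((m + 2 : ℕ) : ℝ))
        - √(((k + 1 : ℕ) : ℝ) * (((m + 2 : ℕ) : ℝ) - ((k + 1 : ℕ) : ℝ)) / ((m + 2 : ℕ) : ℝ))) ^ 2
        ≤ 1 / 2 * (1 + Real.log ((m + 2 : ℕ) : ℝ)) := by
      have h1 : ∀ k ∈ range m, (√((((k + 1 : ℕ) : ℝ) + 1) * (((m + 2 : ℕ) : ℝ) - (((k + 1 : ℕ) : ℝ) + 1)) / ((m + 2 : ℕ) : ℝ))
        - √(((k + 1 : ℕ) : ℝ) * (((m + 2 : ℕ) : ℝ) - ((k + 1 : ℕ) : ℝ)) / ((m + 2 : ℕ) : ℝ))) ^ 2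
        ≤ (1 / 4) * ((1 / ((k + 1 : ℕ) : ℝ)) + 1 / (((m - 1 - k + 1 : ℕ) : ℝ))) := by
        intro k hk
        have hkm := mem_range.1 hk
        have := term_le (n := m + 2) (k := k + 1) (by omega) (by omega)
        have e : ((m + 2 : ℕ) : ℝ) - 1 - ((k + 1 : ℕ) : ℝ) = ((m - 1 - k + 1 : ℕ) : ℝ) := by
          have : m - 1 - k + 1 = m - k := by omega
          rw [this, Nat.cast_sub (by omega)]
          push_cast
          ring
        rw [e] at this
        exact this
      refine (sum_le_sum h1).trans ?_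
      rw [← mul_sum, sum_add_distrib, Finset.sum_range_reflect (fun j => 1 / ((j + 1 : ℕ) : ℝ)) m]
      have h2 : ∑ j ∈ range m, 1 / ((j + 1 : ℕ) : ℝ) ≤ 1 + Real.log ((m + 2 : ℕ) : ℝ) := by
        have h3 : ∑ j ∈ range m, 1 / ((j + 1 : ℕ) : ℝ) = ((harmonic m : ℚ) : ℝ) := by
          rw [harmonic]
          push_cast
          exact sum_congr rfl fun j _ => by rw [one_div]
        rw [h3]
        refine (harmonic_le_one_add_log m).trans ?_
        rcases Nat.eq_zero_or_pos m with h0 | h0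
        · subst h0
          simp
          exact Real.log_nonneg (by norm_num)
        · have : Real.log m ≤ Real.log ((m + 2 : ℕ) : ℝ) := by
            apply Real.log_le_log (by exact_mod_cast h0)
            push_cast
            linarith
          linarith
      linarith
    linarith

lemma T_twelve : 5 * T 12 < 11 := by
  have h1 : T 12 = 2 * ((√(11 / 12)) ^ 2 + (√(20 / 12) - √(11 / 12)) ^ 2 + (√(27 / 12) - √(20 / 12)) ^ 2
      + (√(32 / 12) - √(27 / 12)) ^ 2 + (√(35 / 12) - √(32 / 12)) ^ 2 + (√(36 / 12) - √(35 / 12)) ^ 2) := by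
    unfold T
    simp only [sum_range_succ, sum_range_zero]
    norm_num
    ring
  rw [h1]
  have b1 : (0.957 : ℝ) ≤ √(11 / 12) := Real.le_sqrt_of_sq_le (by norm_num)
  have b1' : √(11 / 12) ≤ (0.958 : ℝ) := Real.sqrt_le_iff.2 ⟨by norm_num, by norm_num⟩
  have b2 : (1.290 : ℝ) ≤ √(20 / 12) := Real.le_sqrt_of_sq_le (by norm_num)
  have b2' : √(20 / 12) ≤ (1.2911 : ℝ) := Real.sqrt_le_iff.2 ⟨by norm_num, by norm_num⟩
  have b3 : (1.5 : ℝ) ≤ √(27 / 12) := Real.le_sqrt_of_sq_le (by norm_num)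
  have b3' : √(27 / 12) ≤ (1.5 : ℝ) := Real.sqrt_le_iff.2 ⟨by norm_num, by norm_num⟩
  have b4 : (1.6328 : ℝ) ≤ √(32 / 12) := Real.le_sqrt_of_sq_le (by norm_num)
  have b4' : √(32 / 12) ≤ (1.6331 : ℝ) := Real.sqrt_le_iff.2 ⟨by norm_num, by norm_num⟩
  have b5 : (1.7077 : ℝ) ≤ √(35 / 12) := Real.le_sqrt_of_sq_le (by norm_num)
  have b5' : √(35 / 12) ≤ (1.7079 : ℝ) := Real.sqrt_le_iff.2 ⟨by norm_num, by norm_num⟩
  have b6' : √(36 / 12) ≤ (1.7321 : ℝ) := Real.sqrt_le_iff.2 ⟨by norm_num, by norm_num⟩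
  have b6 : √(35 / 12) ≤ √(36 / 12) := Real.sqrt_le_sqrt (by norm_num)
  have c1 : (√(11 / 12)) ^ 2 = 11 / 12 := Real.sq_sqrt (by norm_num)
  have c2 : (√(20 / 12) - √(11 / 12)) ^ 2 ≤ (1.2911 - 0.957) ^ 2 := by
    apply sq_le_sq' <;> linarith
  have c3 : (√(27 / 12) - √(20 / 12)) ^ 2 ≤ (1.5 - 1.290) ^ 2 := by
    apply sq_le_sq' <;> linarith
  have c4 : (√(32 / 12) - √(27 / 12)) ^ 2 ≤ (1.6331 - 1.5) ^ 2 := by
    apply sq_le_sq' <;> linarith
  have c5 : (√(35 / 12) - √(32 / 12)) ^ 2 ≤ (1.7079 - 1.6328) ^ 2 := by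
    apply sq_le_sq' <;> linarith
  have c6 : (√(36 / 12) - √(35 / 12)) ^ 2 ≤ (1.7321 - 1.7077) ^ 2 := by
    apply sq_le_sq' <;> linarith
  rw [c1]
  norm_num at c2 c3 c4 c5 c6 ⊢
  linarith

/-- Every `ℓ₁`-equilateral set `S ⊂ ℝ^d` (pairwise `ℓ₁`-distance `2`) satisfies
`|S| - 1 ≤ d * T(|S|)`, where `T(n) ≤ 5/2 + (log n)/2`; in particular at most eleven translates of
the five-dimensional crosspolytope can touch pairwise. -/
theorem result (d : ℕ) (S : Finset (Fin d → ℝ))
    (hS : ∀ x ∈ S, ∀ y ∈ S, x ≠ y → ∑ i, |x i - y i| = 2) :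
    (S.card : ℝ) - 1 ≤ d * T S.card ∧ T S.card ≤ 5 / 2 + Real.log S.card / 2 ∧
      (d = 5 → S.card ≤ 11) := by
  refine ⟨bound_finset S hS, T_le _, ?_⟩
  rintro rfl
  by_contra hcard
  push Not at hcard
  obtain ⟨S', hS', hc⟩ := Finset.exists_subset_card_eq (show 12 ≤ S.card by omega)
  have := bound_finset S' (fun x hx y hy hxy => hS x (hS' hx) y (hS' hy) hxy)
  rw [hc] at this
  have h12 := T_twelve
  push_cast at this
  linarith

end Pool.H27.MV.HardyBound
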